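import Pool.Agent.K1H84.VT.Lim2

set_option autoImplicit false

/-! From few exceptional vectors in short boxes to typical points. -/

namespace Pool.Agent.K1H84.FC

open MeasureTheory Filter Topology Pool.Agent.K1H84.VT

/-- the corner of the box of size `R N` around `u` -/
noncomputable def corner {k : ℕ} (u : Fin k → ℝ) (R N : ℕ) (i : Fin k) : ℕ := ⌊u i - R * N - 1⌋₊

/-- the side of the box -/
def side (R N : ℕ) : ℕ := 2 * R * N + 3

theorem mem_box {k : ℕ} (u : Fin k → ℝ) (R N : ℕ) (A : Fin k → ℕ) (h1 : ∀ i, 1 ≤ A i)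
    (h2 : ∀ i, |(A i : ℝ) - u i| ≤ R * N) :
    ∀ i, corner u R N i < A i ∧ A i ≤ corner u R N i + side R N := by
  intro i
  have h3 := abs_le.1 (h2 i)
  have h1' : (1 : ℝ) ≤ A i := by exact_mod_cast h1 i
  have hs : ((side R N : ℕ) : ℝ) = 2 * R * N + 3 := by
    unfold side
    push_cast
    ring
  constructor
  · rw [corner, Nat.floor_lt' (by have := h1 i; omega)]
    linarith
  · have h4 : u i - R * N - 1 < (corner u R N i : ℝ) + 1 := Nat.lt_floor_add_one _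
    have h5 : (A i : ℝ) < ((corner u R N i + side R N : ℕ) : ℝ) := by
      push_cast
      rw [hs]
      nlinarith
    exact_mod_cast h5.le

theorem height_box {k : ℕ} (u : Fin k → ℝ) (R N K : ℕ) (hN : 2 * R + 5 ≤ N)
    (hu : ∀ i, |u i| ≤ (N : ℝ) ^ K) (i : Fin k) : corner u R N i + side R N ≤ N ^ (K + 2) := by
  have h1 : corner u R N i ≤ N ^ K := by
    unfold corner
    have h2 : ⌊u i - R * N - 1⌋₊ ≤ ⌊(((N ^ K : ℕ)) : ℝ)⌋₊ := by
      apply Nat.floor_le_floor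
      have h3 := (abs_le.1 (hu i)).2
      push_cast
      have : (0 : ℝ) ≤ R * N := by positivity
      linarith
    rwa [Nat.floor_natCast] at h2
  have h4 : 1 ≤ N ^ K := Nat.one_le_pow _ _ (by omega)
  have h5 : N ^ (K + 2) = N ^ K * (N * N) := by ring
  have h6 : (2 * R + 5) * N ≤ N * N := Nat.mul_le_mul_right _ hN
  have h7 : N ^ K * ((2 * R + 5) * N) ≤ N ^ K * (N * N) := Nat.mul_le_mul_left _ h6
  have h8 : N ^ K * ((2 * R + 5) * N) = N ^ K * ((2 * R + 4) * N) + N ^ K * N := by ring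
  have h9 : 1 * ((2 * R + 4) * N) ≤ N ^ K * ((2 * R + 4) * N) := Nat.mul_le_mul_right _ h4
  have h10 : N ^ K * 1 ≤ N ^ K * N := Nat.mul_le_mul_left _ (by omega)
  have h11 : side R N ≤ (2 * R + 4) * N := by
    unfold side
    nlinarith
  rw [h5]
  omega

/-- the exceptional vectors in the box -/
noncomputable def Bad {k : ℕ} (P : ℕ → (Fin k → ℕ) → Prop) (u : Fin k → ℝ) (R N : ℕ) :
    Finset (Fin k → ℕ) := by
  classical
  exact (Fintype.piFinset fun i => Finset.Ioc (corner u R N i) (corner u R N i + side R N)).filter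
    (fun A => P N A)

theorem mem_Bad {k : ℕ} (P : ℕ → (Fin k → ℕ) → Prop) (u : Fin k → ℝ) (R N : ℕ) (A : Fin k → ℕ) :
    A ∈ Bad P u R N ↔
      (∀ i, corner u R N i < A i ∧ A i ≤ corner u R N i + side R N) ∧ P N A := by
  classical
  unfold Bad
  rw [Finset.mem_filter, Fintype.mem_piFinset]
  simp only [Finset.mem_Ioc]

/-- `P` has at most `f N ∏ M i` exceptions in all boxes of sides `M i ≥ N` and height at most `N ^ K` -/
def FewInBoxes {k : ℕ} (P : ℕ → (Fin k → ℕ) → Prop) (f : ℕ → ℝ) : Prop :=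
  ∀ K : ℕ, ∃ N₀ : ℕ, ∀ N : ℕ, N₀ ≤ N → ∀ a M : Fin k → ℕ, (∀ i, N ≤ M i) → (∀ i, a i + M i ≤ N ^ K) →
    (({A : Fin k → ℕ | (∀ i, a i < A i ∧ A i ≤ a i + M i) ∧ P N A}.ncard : ℕ) : ℝ) ≤
      f N * ∏ i, (M i : ℝ)

theorem card_Bad {k : ℕ} {P : ℕ → (Fin k → ℕ) → Prop} {f : ℕ → ℝ} (hf : ∀ N, 0 ≤ f N)
    (hP : FewInBoxes P f) (K R : ℕ) (hR : 1 ≤ R) : ∃ N₀ : ℕ, ∀ N : ℕ, N₀ ≤ N → ∀ u : Fin k → ℝ,
      (∀ i, |u i| ≤ (N : ℝ) ^ K) →
      ((Bad P u R N).card : ℝ) ≤ (2 * R + 3 : ℝ) ^ k * (f N * (N : ℝ) ^ k) := by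
  obtain ⟨N₁, h⟩ := hP (K + 2)
  refine ⟨max N₁ (2 * R + 5), fun N hN u hu => ?_⟩
  have hN1 := (le_max_left _ _).trans hN
  have hN2 := (le_max_right _ _).trans hN
  have h1 := h N hN1 (corner u R N) (fun _ => side R N) (fun i => by
    unfold side
    nlinarith) (fun i => height_box u R N K hN2 hu i)
  have h2 : {A : Fin k → ℕ | (∀ i, corner u R N i < A i ∧ A i ≤ corner u R N i + side R N) ∧ P N A} =
      ((Bad P u R N : Finset (Fin k → ℕ)) : Set (Fin k → ℕ)) := by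
    ext A
    rw [Finset.mem_coe, mem_Bad]
    rfl
  rw [h2, Set.ncard_coe_finset] at h1
  refine h1.trans ?_
  rw [Finset.prod_const, Finset.card_univ, Fintype.card_fin]
  have h3 : ((side R N : ℕ) : ℝ) ≤ (2 * R + 3 : ℝ) * N := by
    have h4 : side R N ≤ (2 * R + 3) * N := by
      unfold side
      nlinarith
    exact_mod_cast h4
  calc f N * ((side R N : ℕ) : ℝ) ^ k ≤ f N * ((2 * R + 3 : ℝ) * N) ^ k :=
        mul_le_mul_of_nonneg_left (pow_le_pow_left₀ (by positivity) h3 k) (hf N)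
    _ = _ := by
        rw [mul_pow]
        ring

/-- **The dimension of the exceptional points.** -/
theorem box_dim {k : ℕ} (hk : 1 ≤ k) {P : ℕ → (Fin k → ℕ) → Prop} {δ : ℝ} (hδ1 : δ ≤ 1)
    (hP : FewInBoxes P (fun N => (N : ℝ) ^ (-δ))) (N : ℕ → ℕ) (hN : ∀ n, 1 ≤ N n) {τ θ : ℝ}
    (hτ : 0 ≤ τ) (hθ : θ < 1) (hs : ∀ t : ℝ, τ < t → Summable fun n => (N n : ℝ) ^ (-t))
    (K : ℕ) (u : ℕ → Fin k → ℝ) (hu : ∀ n i, |u n i| ≤ (N n : ℝ) ^ K) :
    ∃ E : Set (Fin k → ℝ), dimH E ≤ ENNReal.ofReal ((k - δ + τ) / (1 - θ)) ∧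
      ∀ ξ : Fin k → ℝ, ξ ∉ E → ∀ c : ℝ, ∀ᶠ n in atTop, ∀ A : Fin k → ℕ, (∀ i, 1 ≤ A i) →
        (∀ i, |(A i : ℝ) - (u n i + N n * ξ i)| ≤ c * (N n : ℝ) ^ θ) → ¬ P (N n) A := by
  classical
  have hkR : (1 : ℝ) ≤ k := by exact_mod_cast hk
  have hpos : ∀ n, (0 : ℝ) < N n := fun n => by exact_mod_cast hN n
  have hN1 : ∀ n, (1 : ℝ) ≤ N n := fun n => by exact_mod_cast hN n
  have hcard : ∀ R : ℕ, 1 ≤ R → ∃ N₀ : ℕ, ∀ M : ℕ, N₀ ≤ M → ∀ u : Fin k → ℝ,
      (∀ i, |u i| ≤ (M : ℝ) ^ K) →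
      ((Bad P u R M).card : ℝ) ≤ (2 * R + 3 : ℝ) ^ k * ((M : ℝ) ^ (-δ) * (M : ℝ) ^ k) :=
    fun R hR => card_Bad (fun N => by positivity) hP K R hR
  choose! N₀ hN₀ using hcard
  set G : ℕ → ℕ → Finset (Fin k → ℕ) := fun R n => if N₀ R ≤ N n then Bad P (u n) R (N n) else ∅ with hG
  set Er : ℕ → Set (Fin k → ℝ) := fun R => {ξ | {p : (n : ℕ) × {x // x ∈ G R n} |
      ∀ i, |((p.2.1 i : ℝ) - u p.1 i) - (N p.1 : ℝ) * ξ i| ≤ (R : ℝ) * (N p.1 : ℝ) ^ θ}.Infinite} with hEr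
  refine ⟨⋃ R : ℕ, Er (R + 1), ?_, fun ξ hξ c => ?_⟩
  · rw [dimH_iUnion]
    refine iSup_le fun r => ?_
    set R := r + 1 with hR
    refine dim_lim2 (fun n => (N n : ℝ)) hpos hτ (a := (k : ℝ) - δ) (by linarith) hθ hs
      (fun n (x : Fin k → ℕ) i => (x i : ℝ) - u n i) (G R) (C := (2 * R + 3 : ℝ) ^ k) ?_
      (c := (R : ℝ)) (by positivity)
    intro n
    have hp := hpos n
    by_cases hn : N₀ R ≤ N n
    · have h1 := hN₀ R (by omega) (N n) hn (u n) (hu n)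
      simp only [hG, if_pos hn]
      refine h1.trans (le_of_eq ?_)
      rw [← Real.rpow_natCast (N n : ℝ) k, ← Real.rpow_add hp]
      congr 2
      ring
    · simp only [hG, if_neg hn, Finset.card_empty, Nat.cast_zero]
      positivity
  · obtain ⟨r, hr⟩ := exists_nat_ge (|c| + ∑ i, |ξ i|)
    set R := r + 1 with hR
    have hRr : (R : ℝ) = r + 1 := by
      rw [hR]
      push_cast
      ring
    have hc : c ≤ R := by
      have h1 := le_abs_self c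
      have h2 : 0 ≤ ∑ i, |ξ i| := Finset.sum_nonneg fun i _ => abs_nonneg _
      linarith
    have h1 : ξ ∉ Er R := fun h => hξ (Set.mem_iUnion.2 ⟨r, h⟩)
    have h2 : {p : (n : ℕ) × {x // x ∈ G R n} |
      ∀ i, |((p.2.1 i : ℝ) - u p.1 i) - (N p.1 : ℝ) * ξ i| ≤ (R : ℝ) * (N p.1 : ℝ) ^ θ}.Finite := by
      by_contra h
      exact h1 h
    have h3 := eventually_of_finite (G R) (fun n x => ∀ i, |((x i : ℝ) - u n i) - (N n : ℝ) * ξ i| ≤
      (R : ℝ) * (N n : ℝ) ^ θ) h2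
    have h4 : ∀ᶠ n in atTop, N₀ R ≤ N n := by
      have h5 := (hs (τ + 1) (by linarith)).tendsto_atTop_zero
      have h6 : (0 : ℝ) < ((N₀ R : ℝ) + 1) ^ (-(τ + 1)) := by positivity
      filter_upwards [h5.eventually (gt_mem_nhds h6)] with n hn
      by_contra hlt
      push Not at hlt
      have h7 : ((N₀ R : ℝ) + 1) ^ (-(τ + 1)) ≤ (N n : ℝ) ^ (-(τ + 1)) := by
        refine Real.rpow_le_rpow_of_nonpos (hpos n) ?_ (by linarith)
        have : (N n : ℝ) < N₀ R := by exact_mod_cast hlt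
        linarith
      exact absurd hn (not_lt.2 h7)
    filter_upwards [h3, h4] with n hn hn0 A g1 g2 g3
    have hθN : (N n : ℝ) ^ θ ≤ N n := by
      calc (N n : ℝ) ^ θ ≤ (N n : ℝ) ^ (1 : ℝ) := Real.rpow_le_rpow_of_exponent_le (hN1 n) hθ.le
        _ = N n := Real.rpow_one _
    have hθ0 : 0 < (N n : ℝ) ^ θ := Real.rpow_pos_of_pos (hpos n) θ
    refine hn A ?_ fun i => ?_
    · simp only [hG, if_pos hn0]
      rw [mem_Bad]
      refine ⟨mem_box _ _ _ _ g1 fun i => ?_, g3⟩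
      have h5 : |(A i : ℝ) - u n i| ≤ |(A i : ℝ) - (u n i + N n * ξ i)| + |(N n : ℝ) * ξ i| := by
        have := abs_add_le ((A i : ℝ) - (u n i + N n * ξ i)) ((N n : ℝ) * ξ i)
        refine le_trans (le_of_eq ?_) this
        congr 1
        ring
      have h6 : |ξ i| ≤ ∑ i, |ξ i| :=
        Finset.single_le_sum (f := fun i => |ξ i|) (fun i _ => abs_nonneg _) (Finset.mem_univ i)
      rw [abs_mul, abs_of_pos (hpos n)] at h5
      have h7 : c * (N n : ℝ) ^ θ ≤ |c| * N n :=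
        (mul_le_mul_of_nonneg_right (le_abs_self c) hθ0.le).trans
          (mul_le_mul_of_nonneg_left hθN (abs_nonneg c))
      have h8 : (N n : ℝ) * |ξ i| ≤ (N n : ℝ) * ∑ i, |ξ i| :=
        mul_le_mul_of_nonneg_left h6 (hpos n).le
      have h9 : (|c| + ∑ i, |ξ i|) * (N n : ℝ) ≤ r * N n := mul_le_mul_of_nonneg_right hr (hpos n).le
      have := g2 i
      rw [hRr]
      nlinarith [hpos n]
    · have h5 := g2 i
      have h6 : ((A i : ℝ) - u n i) - (N n : ℝ) * ξ i = (A i : ℝ) - (u n i + N n * ξ i) := by ring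
      rw [h6]
      exact h5.trans (mul_le_mul_of_nonneg_right hc hθ0.le)

/-- **Almost all points.** -/
theorem box_ae {k : ℕ} {P : ℕ → (Fin k → ℕ) → Prop} {f : ℕ → ℝ} (hf : ∀ N, 0 ≤ f N)
    (hP : FewInBoxes P f) (N : ℕ → ℕ) (hN : Tendsto N atTop atTop)
    (K : ℕ) (u : ℕ → Fin k → ℝ) (hu : ∀ n i, |u n i| ≤ (N n : ℝ) ^ K)
    (w : ℕ → ℝ) (hw : ∀ n, 0 ≤ w n) (hwN : ∀ᶠ n in atTop, w n ≤ N n)
    (hs : Summable fun n => f (N n) * w n ^ k) :
    ∀ᵐ ξ : Fin k → ℝ, ∀ᶠ n in atTop, ∀ A : Fin k → ℕ, (∀ i, 1 ≤ A i) →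
        (∀ i, |(A i : ℝ) - (u n i + N n * ξ i)| ≤ w n) → ¬ P (N n) A := by
  classical
  have hcard : ∀ R : ℕ, 1 ≤ R → ∃ N₀ : ℕ, ∀ M : ℕ, N₀ ≤ M → ∀ u : Fin k → ℝ,
      (∀ i, |u i| ≤ (M : ℝ) ^ K) →
      ((Bad P u R M).card : ℝ) ≤ (2 * R + 3 : ℝ) ^ k * (f M * (M : ℝ) ^ k) :=
    fun R hR => card_Bad hf hP K R hR
  choose! N₀ hN₀ using hcard
  -- positive scales
  set N' : ℕ → ℝ := fun n => max (N n : ℝ) 1 with hN'
  have hpos : ∀ n, (0 : ℝ) < N' n := fun n => lt_of_lt_of_le one_pos (le_max_right _ _)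
  set G : ℕ → ℕ → Finset (Fin k → ℕ) := fun R n =>
    if N₀ R ≤ N n ∧ 1 ≤ N n then Bad P (u n) R (N n) else ∅ with hG
  have key : ∀ r : ℕ, ∀ᵐ ξ : Fin k → ℝ, ∀ᶠ n in atTop, ∀ x ∈ G (r + 1) n,
      ¬ ∀ i, |((x i : ℝ) - u n i) - N' n * ξ i| ≤ w n := by
    intro r
    set R := r + 1 with hR
    refine ae_lim2 N' hpos (fun n (x : Fin k → ℕ) i => (x i : ℝ) - u n i) (G R) w hw ?_
    rw [Fintype.card_fin]
    refine Summable.of_nonneg_of_le (fun n => by
      have := hpos n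
      have := hw n
      positivity) (fun n => ?_) (hs.mul_left ((2 * R + 3 : ℝ) ^ k))
    by_cases hn : N₀ R ≤ N n ∧ 1 ≤ N n
    · have h1 := hN₀ R (by omega) (N n) hn.1 (u n) (hu n)
      have h2 : N' n = N n := by
        rw [hN']
        exact max_eq_left (by exact_mod_cast hn.2)
      have h3 : (0 : ℝ) < N n := by
        have := hn.2
        exact_mod_cast this
      simp only [hG, if_pos hn]
      rw [h2, div_pow]
      calc ((Bad P (u n) R (N n)).card : ℝ) * (w n ^ k / (N n : ℝ) ^ k)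
          ≤ ((2 * R + 3 : ℝ) ^ k * (f (N n) * (N n : ℝ) ^ k)) * (w n ^ k / (N n : ℝ) ^ k) := by
            refine mul_le_mul_of_nonneg_right h1 ?_
            have := hw n
            positivity
        _ = _ := by
            field_simp
    · simp only [hG, if_neg hn, Finset.card_empty, Nat.cast_zero, zero_mul]
      have := hw n
      have := hf (N n)
      positivity
  rw [← ae_all_iff] at key
  filter_upwards [key] with ξ hξ
  obtain ⟨r, hr⟩ := exists_nat_ge (∑ i, |ξ i|)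
  have h3 := hξ r
  set R := r + 1 with hR
  have hRr : (R : ℝ) = r + 1 := by
    rw [hR]
    push_cast
    ring
  filter_upwards [h3, hwN, hN.eventually_ge_atTop (max (N₀ R) 1)] with n hn hw1 hn0 A g1 g2 g3
  have hn1 : N₀ R ≤ N n ∧ 1 ≤ N n := ⟨(le_max_left _ _).trans hn0, (le_max_right _ _).trans hn0⟩
  have h2 : N' n = N n := by
    rw [hN']
    exact max_eq_left (by exact_mod_cast hn1.2)
  have h0 : (0 : ℝ) < N n := by
    have := hn1.2
    exact_mod_cast this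
  refine hn A ?_ fun i => ?_
  · simp only [hG, if_pos hn1]
    rw [mem_Bad]
    refine ⟨mem_box _ _ _ _ g1 fun i => ?_, g3⟩
    have h5 : |(A i : ℝ) - u n i| ≤ |(A i : ℝ) - (u n i + N n * ξ i)| + |(N n : ℝ) * ξ i| := by
      have := abs_add_le ((A i : ℝ) - (u n i + N n * ξ i)) ((N n : ℝ) * ξ i)
      refine le_trans (le_of_eq ?_) this
      congr 1
      ring
    have h6 : |ξ i| ≤ ∑ i, |ξ i| :=
      Finset.single_le_sum (f := fun i => |ξ i|) (fun i _ => abs_nonneg _) (Finset.mem_univ i)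
    rw [abs_mul, abs_of_pos h0] at h5
    have h8 : (N n : ℝ) * |ξ i| ≤ (N n : ℝ) * r := mul_le_mul_of_nonneg_left (h6.trans hr) h0.le
    have := g2 i
    rw [hRr]
    nlinarith
  · have h5 := g2 i
    have h6 : ((A i : ℝ) - u n i) - N' n * ξ i = (A i : ℝ) - (u n i + N n * ξ i) := by
      rw [h2]
      ring
    rw [h6]
    exact h5

end Pool.Agent.K1H84.FC
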